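import Pool.Agent.T6.H90.ST.BR
import Pool.Agent.T6.H90.ST.FA
import Pool.Agent.T6.H90.ST.CN
import Pool.Agent.T6.H90.ST.CV
import Pool.Agent.T6.H90.ST.CF
import Pool.Agent.T6.H90.ST.TY
import Pool.Agent.T6.H90.ST.PH
import Pool.Agent.T6.H90.ST.CT
import Pool.Agent.T6.H90.ST.L1
import Pool.Agent.T6.H90.ST.L2
import Pool.Agent.T6.H90.ST.L3
import Pool.Agent.T6.H90.ST.U
import Pool.Agent.T6.H90.ST.L

set_option autoImplicit false

/-!
# The isomorphism type of a uniform random spanning tree of a regular graph

For every `ε > 0` there is `d₀` such that for every `d ≥ d₀`, every connected `d`-regular graph `G` on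
`n` vertices and every finite tree `T` the uniform random spanning tree of `G` is isomorphic to `T`
with probability at most `exp (-(1 - ε) n) / |Aut T|`.

The proof. It is enough to show that there are at most `(d / e) ^ n exp (ε n)` bijections from the
vertices of `T` to the vertices of `G` that map edges to edges, since `G` has at least
`d ^ n exp (-ε n)` spanning trees (Alon).

Let `T` be rooted at `r`. A vertex is large if it is the root or has more than `K` descendants. The type
of a small vertex is the isomorphism type of the ordered tree of its descendants. For a vertex `x` of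
`G` and a type `θ` let `g(x, θ)` be the number of the pairs (`y`, child of type `θ` of the vertex of `T`
embedded at `y`) such that `x` and `y` are adjacent. Revealing the children for a sparse sample of the
vertices determines all `g(x, θ)` up to a small error, at the cost of a factor `exp (ε n)`. If `g` is
known and the types `τ(x)` of all vertices `x` have been chosen, then the theorem of Brègman is applied
twice: first to the large vertices (few of them have a number of large children different from one), and
then, when the positions of the large vertices in `T` are known, to the small vertices. The number of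
embeddings is at most the product of the `g(x, τ(x)) / e`, approximately, and the sum over all `τ` is
the product over `x` of the sums over `θ` of `g(x, θ) / e`, at most `(d / e) ^ n` by the inequality of
arithmetic and geometric means.

The modules were written by helper64 (CV, L1), helper89 (BR, TY), helper94 (FA, CN, CF, L2, L3) and
helper99 (PH, CT); the proof, the definitions and the assembly are by helper90.
-/

namespace Pool.Agent.Results.MP_148fc2_co.IsomorphismProbability

open Pool.Agent.T6.H90.ST

/-- The spanning trees of the graph `G`. -/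
def spanningTrees {V : Type} (G : SimpleGraph V) : Set (SimpleGraph V) := {S | S ≤ G ∧ S.IsTree}

/-- The probability that a spanning tree of `G`, chosen uniformly at random, is isomorphic to `T`. -/
noncomputable def isoProb {V W : Type} (G : SimpleGraph V) (T : SimpleGraph W) : ℝ :=
  ({S | S ∈ spanningTrees G ∧ Nonempty (S ≃g T)}.ncard : ℝ) / (spanningTrees G).ncard

lemma exists_parent {W : Type} (T : SimpleGraph W) (hT : T.Connected) (r : W) :
    ∃ par : W → W, ∀ t, t ≠ r → T.Adj (par t) t ∧ T.dist r (par t) < T.dist r t := by
  have h : ∀ t, ∃ s, t ≠ r → T.Adj s t ∧ T.dist r s < T.dist r t := by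
    intro t
    by_cases ht : t = r
    · exact ⟨t, fun h => absurd ht h⟩
    · obtain ⟨p, hp⟩ := (hT.preconnected t r).exists_walk_length_eq_dist
      cases p with
      | nil => exact absurd rfl ht
      | cons hadj q =>
        rename_i s
        refine ⟨s, fun _ => ⟨hadj.symm, ?_⟩⟩
        have h1 : T.dist s r ≤ q.length := SimpleGraph.dist_le q
        rw [SimpleGraph.Walk.length_cons] at hp
        rw [SimpleGraph.dist_comm, SimpleGraph.dist_comm (u := r)]
        omega
  choose par hpar using h
  exact ⟨par, hpar⟩

/-- For every `ε > 0` there is `d₀` such that for all `d ≥ d₀`, every connected `d`-regular graph `G` on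
`n` vertices and every finite tree `T`, a uniform random spanning tree of `G` is isomorphic to `T` with
probability at most `exp (-(1 - ε) n) / |Aut T|`. -/
theorem result : ∀ ε : ℝ, 0 < ε → ∃ d₀ : ℕ, ∀ d : ℕ, d₀ ≤ d → ∀ (V W : Type) [Fintype V] [Fintype W]
    (G : SimpleGraph V) (T : SimpleGraph W), G.Connected → (∀ x, (G.neighborSet x).ncard = d) →
    T.IsTree →
    isoProb G T ≤ Real.exp (-(1 - ε) * Fintype.card V) / Nat.card (T ≃g T) := by
  classical
  intro ε hε
  obtain ⟨d₁, h₁⟩ := u fa cn (cf cn (cv cn)) ty (ct (ph br)) (ε / 2) (by positivity)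
  obtain ⟨d₂, h₂⟩ := l cn l1 l2 l3 (ε / 2) (by positivity)
  refine ⟨max (max d₁ d₂) 1, ?_⟩
  intro d hd V W _ _ G T hG hreg hT
  have hd1 : d₁ ≤ d := (le_max_left _ _).trans ((le_max_left _ _).trans hd)
  have hd2 : d₂ ≤ d := (le_max_right _ _).trans ((le_max_left _ _).trans hd)
  have hd3 : 1 ≤ d := (le_max_right _ _).trans hd
  have hdpos : (0 : ℝ) < d := by exact_mod_cast hd3
  have hAne : Nonempty (T ≃g T) := ⟨SimpleGraph.Iso.refl⟩
  have hAfin : Finite (T ≃g T) :=
    Finite.of_injective (fun α : T ≃g T => α.toEquiv) (fun α β h => RelIso.toEquiv_injective h)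
  have hApos : (0 : ℝ) < Nat.card (T ≃g T) := by exact_mod_cast Nat.card_pos
  set I : Set (SimpleGraph V) := {S | S ∈ spanningTrees G ∧ Nonempty (S ≃g T)} with hI
  have hreg' : ∀ x, Nat.card {y // G.Adj x y} = d := fun x => hreg x
  have hτ := h₂ d hd2 V G hG hreg'
  have hτ' : (d : ℝ) ^ Fintype.card V * Real.exp (-(ε / 2 * Fintype.card V)) ≤
      ((spanningTrees G).ncard : ℝ) := hτ
  have hτpos : (0 : ℝ) < (spanningTrees G).ncard := lt_of_lt_of_le (by positivity) hτ'
  rw [isoProb, ← hI]
  by_cases hcard : Fintype.card W = Fintype.card V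
  swap
  · have hIe : I = ∅ := by
      rw [Set.eq_empty_iff_forall_notMem]
      rintro S ⟨-, ⟨e⟩⟩
      exact hcard (Fintype.card_congr e.toEquiv).symm
    rw [hIe, Set.ncard_empty]
    simp only [Nat.cast_zero, zero_div]
    positivity
  obtain ⟨r⟩ := hT.connected.nonempty
  obtain ⟨par, hpar⟩ := exists_parent T hT.connected r
  set N : V → Finset V := fun x => Finset.univ.filter fun y => G.Adj x y with hN
  have hNmem : ∀ x y, y ∈ N x ↔ G.Adj x y := by intro x y; simp [hN]
  have hNd : ∀ x, (N x).card = d := by
    intro x
    rw [← hreg' x, Nat.card_eq_fintype_card, Fintype.card_subtype]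
  have hU := h₁ d hd1 V W N r par (fun t => T.dist r t) hNd
    (fun x y => by rw [hNmem, hNmem, G.adj_comm]) (fun x => by rw [hNmem]; exact G.loopless.irrefl x)
    (fun t ht => (hpar t ht).2) hcard
  -- pairs of a tree and an automorphism give embeddings
  have hcount : I.ncard * Nat.card (T ≃g T) ≤
      Nat.card {φ : W ≃ V // ∀ t, t ≠ r → φ (par t) ∈ N (φ t)} := by
    have hIcard : I.ncard = Nat.card I := rfl
    rw [hIcard, ← Nat.card_prod]
    have hch : ∀ S : I, Nonempty (T ≃g (S : SimpleGraph V)) := by
      rintro ⟨S, -, ⟨e⟩⟩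
      exact ⟨e.symm⟩
    let e : ∀ S : I, T ≃g (S : SimpleGraph V) := fun S => Classical.choice (hch S)
    refine Nat.card_le_card_of_injective (fun p : I × (T ≃g T) =>
      (⟨(p.2.toEquiv.trans (e p.1).toEquiv), ?_⟩ :
        {φ : W ≃ V // ∀ t, t ≠ r → φ (par t) ∈ N (φ t)})) ?_
    · intro t ht
      rw [hNmem]
      have h1 : T.Adj (par t) t := (hpar t ht).1
      have h2 : (p.1 : SimpleGraph V).Adj (e p.1 (p.2 t)) (e p.1 (p.2 (par t))) :=
        (e p.1).map_adj_iff.2 (p.2.map_adj_iff.2 h1.symm)
      exact p.1.2.1.1 h2
    · rintro ⟨S, α⟩ ⟨S', α'⟩ h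
      have h1 : α.toEquiv.trans (e S).toEquiv = α'.toEquiv.trans (e S').toEquiv :=
        congrArg Subtype.val h
      have h2 : ∀ t, e S (α t) = e S' (α' t) := fun t =>
        congrArg (fun (f : W ≃ V) => f t) h1
      have hS : S = S' := by
        apply Subtype.ext
        ext x y
        obtain ⟨a, rfl⟩ := (e S).surjective x
        obtain ⟨b, rfl⟩ := (e S).surjective y
        obtain ⟨a, rfl⟩ := α.surjective a
        obtain ⟨b, rfl⟩ := α.surjective b
        rw [(e S).map_adj_iff, α.map_adj_iff, h2, h2, (e S').map_adj_iff, α'.map_adj_iff]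
      subst hS
      have hα : α = α' := by
        ext t
        exact (e S).injective (h2 t)
      rw [hα]
  have hcount' : (I.ncard : ℝ) * Nat.card (T ≃g T) ≤
      (d / Real.exp 1) ^ Fintype.card V * Real.exp (ε / 2 * Fintype.card V) := by
    refine le_trans ?_ hU
    exact_mod_cast hcount
  rw [div_le_div_iff₀ hτpos hApos]
  refine hcount'.trans ?_
  have h3 : (d / Real.exp 1) ^ Fintype.card V * Real.exp (ε / 2 * Fintype.card V) =
      Real.exp (-(1 - ε) * Fintype.card V) *
        ((d : ℝ) ^ Fintype.card V * Real.exp (-(ε / 2 * Fintype.card V))) := by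
    rw [div_pow, ← Real.exp_nat_mul, mul_one, div_eq_mul_inv, ← Real.exp_neg]
    have h4 : Real.exp (-(1 - ε) * Fintype.card V) =
        Real.exp (-(Fintype.card V : ℝ)) * Real.exp (ε / 2 * Fintype.card V) *
          Real.exp (ε / 2 * Fintype.card V) := by
      rw [← Real.exp_add, ← Real.exp_add]
      congr 1
      ring
    have h5 : Real.exp (ε / 2 * Fintype.card V) * Real.exp (-(ε / 2 * Fintype.card V)) = 1 := by
      rw [← Real.exp_add, add_neg_cancel, Real.exp_zero]
    rw [h4]
    calc (d : ℝ) ^ Fintype.card V * Real.exp (-(Fintype.card V : ℝ)) *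
          Real.exp (ε / 2 * Fintype.card V)
        = (d : ℝ) ^ Fintype.card V * Real.exp (-(Fintype.card V : ℝ)) *
          Real.exp (ε / 2 * Fintype.card V) *
          (Real.exp (ε / 2 * Fintype.card V) * Real.exp (-(ε / 2 * Fintype.card V))) := by
            rw [h5, mul_one]
      _ = _ := by ring
  rw [h3]
  exact mul_le_mul_of_nonneg_left hτ' (Real.exp_pos _).le

end Pool.Agent.Results.MP_148fc2_co.IsomorphismProbability
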